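import Mathlib

/-!
Regular type A sequences: `a(51, 60) = a(60) + 2`, so the inequality `a(k₁, k₂) ≤ a(k₂) + 1` for
`k₁ ≤ k₂` fails.
-/

namespace Pool.Agent.Results.MP_98b1c4_co.GapTwo

/-- Regular type A sequences: start with `(1,1)`; a new term in front is the sum of a nonempty
initial block, a new term at the end is the sum of a nonempty final block. -/
inductive RegA : List ℕ → Prop
  | base : RegA [1, 1]
  | front {d p : List ℕ} (h : RegA d) (h0 : p ≠ []) (hp : p <+: d) : RegA (p.sum :: d)
  | back {d s : List ℕ} (h : RegA d) (h0 : s ≠ []) (hs : s <:+ d) : RegA (d ++ [s.sum])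

/-- The lengths of the regular type A sequences which contain some ordering of the multiset `ks`
as a subsequence. -/
def lengths (ks : Multiset ℕ) : Set ℕ :=
  {n | ∃ d, RegA d ∧ d.length = n ∧ ∃ t : List ℕ, t.Sublist d ∧ (t : Multiset ℕ) = ks}

/-- `a(k₁,…,k_m)`: the least length of a regular type A sequence containing some ordering of the
multiset as a subsequence. -/
noncomputable def a (ks : Multiset ℕ) : ℕ := sInf (lengths ks)

/-- All one-term extensions. -/
def step (d : List ℕ) : List (List ℕ) :=
  (List.range d.length).map (fun j => (d.take (j + 1)).sum :: d) ++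
    (List.range d.length).map (fun j => d ++ [(d.drop j).sum])

/-- Regular sequences of length `m + 2` whose sum is large enough. -/
def gen (T M : ℕ) : ℕ → List (List ℕ)
  | 0 => [[1, 1]]
  | m + 1 => ((gen T M m).flatMap step).filter (fun d => T ≤ d.sum * 2 ^ (M - (m + 1)))

theorem RegA.two_le {d : List ℕ} (h : RegA d) : 2 ≤ d.length := by
  induction h with
  | base => simp
  | front _ _ _ ih => simp; omega
  | back _ _ _ ih => simp; omega

theorem sum_le_of_sublist {p d : List ℕ} (h : p.Sublist d) : p.sum ≤ d.sum := h.sum_le_sum (by simp)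

theorem RegA.sum_le {d : List ℕ} (h : RegA d) : d.sum * 2 ≤ 2 ^ d.length := by
  induction h with
  | base => simp
  | front _ _ hp ih =>
    have := sum_le_of_sublist hp.sublist
    simp [pow_succ]; omega
  | back _ _ hp ih =>
    have := sum_le_of_sublist hp.sublist
    simp [pow_succ]; omega

theorem RegA.mem_le {d : List ℕ} (h : RegA d) : ∀ x ∈ d, x * 4 ≤ 2 ^ d.length := by
  induction h with
  | base => simp
  | front hd _ hp ih =>
    have h1 := sum_le_of_sublist hp.sublist
    have h2 := hd.sum_le
    intro x hx
    simp only [List.mem_cons] at hx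
    simp only [List.length_cons, pow_succ]
    rcases hx with rfl | hx
    · omega
    · have := ih x hx; omega
  | back hd _ hp ih =>
    have h1 := sum_le_of_sublist hp.sublist
    have h2 := hd.sum_le
    intro x hx
    simp only [List.mem_append, List.mem_singleton] at hx
    simp only [List.length_append, List.length_singleton, pow_succ]
    rcases hx with hx | rfl
    · have := ih x hx; omega
    · omega

/-- Every regular sequence of length at least `3` is a one-term extension. -/
theorem RegA.exists_step {d : List ℕ} (h : RegA d) (h3 : 3 ≤ d.length) :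
    ∃ d', RegA d' ∧ d'.length + 1 = d.length ∧ d ∈ step d' ∧ d.sum ≤ 2 * d'.sum ∧
      ∀ x ∈ d, x ∈ d' ∨ x ≤ d'.sum := by
  cases h with
  | base => simp at h3
  | @front d p h h0 hp =>
    refine ⟨d, h, by simp, ?_, ?_, ?_⟩
    · unfold step
      rw [List.mem_append]
      left
      rw [List.mem_map]
      have hl : 0 < p.length := List.length_pos_of_ne_nil h0
      refine ⟨p.length - 1, ?_, ?_⟩
      · rw [List.mem_range]; have := hp.length_le; omega
      · have : d.take (p.length - 1 + 1) = p := by
          rw [Nat.sub_add_cancel hl]; exact (List.prefix_iff_eq_take.mp hp).symm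
        rw [this]
    · have := sum_le_of_sublist hp.sublist
      simp; omega
    · intro x hx
      simp only [List.mem_cons] at hx
      rcases hx with rfl | hx
      · exact Or.inr (sum_le_of_sublist hp.sublist)
      · exact Or.inl hx
  | @back d s h h0 hs =>
    refine ⟨d, h, by simp, ?_, ?_, ?_⟩
    · unfold step
      rw [List.mem_append]
      right
      rw [List.mem_map]
      have hl : 0 < s.length := List.length_pos_of_ne_nil h0
      refine ⟨d.length - s.length, ?_, ?_⟩
      · rw [List.mem_range]; have := hs.length_le; omega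
      · have : d.drop (d.length - s.length) = s := (List.suffix_iff_eq_drop.mp hs).symm
        rw [this]
    · have := sum_le_of_sublist hs.sublist
      simp; omega
    · intro x hx
      simp only [List.mem_append, List.mem_singleton] at hx
      rcases hx with hx | rfl
      · exact Or.inl hx
      · exact Or.inr (sum_le_of_sublist hs.sublist)

theorem mem_gen {T M : ℕ} : ∀ (m : ℕ) (d : List ℕ), RegA d → d.length = m + 2 → m ≤ M →
    T ≤ d.sum * 2 ^ (M - m) → d ∈ gen T M m := by
  intro m
  induction m with
  | zero =>
    intro d hd hl _ _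
    cases hd with
    | base => simp [gen]
    | front h _ _ => have := h.two_le; simp at hl; omega
    | back h _ _ => have := h.two_le; simp at hl; omega
  | succ m ih =>
    intro d hd hl hM hT
    obtain ⟨d', hd', hl', hs, hsum, -⟩ := hd.exists_step (by omega)
    have h1 : d' ∈ gen T M m := by
      refine ih d' hd' (by omega) (by omega) ?_
      have e : M - m = (M - (m + 1)) + 1 := by omega
      rw [e, pow_succ]
      calc T ≤ d.sum * 2 ^ (M - (m + 1)) := hT
        _ ≤ (2 * d'.sum) * 2 ^ (M - (m + 1)) := Nat.mul_le_mul_right _ hsum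
        _ = d'.sum * (2 ^ (M - (m + 1)) * 2) := by ring
    unfold gen
    rw [List.mem_filter, List.mem_flatMap]
    exact ⟨⟨d', h1, hs⟩, by simpa using hT⟩

/-- A regular sequence may be extended to any larger length. -/
theorem RegA.extend {d : List ℕ} (h : RegA d) : ∀ k, ∃ d', RegA d' ∧ d'.length = d.length + k ∧
    ∀ x ∈ d, x ∈ d' := by
  intro k
  induction k with
  | zero => exact ⟨d, h, rfl, fun x hx => hx⟩
  | succ k ih =>
    obtain ⟨d', h', hl, hm⟩ := ih
    have := h'.two_le
    refine ⟨d'.sum :: d', RegA.front h' (by rintro rfl; simp at this) (List.prefix_refl _), ?_, ?_⟩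
    · simp [hl]; omega
    · intro x hx; exact List.mem_cons_of_mem _ (hm x hx)

theorem check : ((gen 51 5 5).all fun d => (step d).all fun d1 =>
    !(d1.contains 51 || d1.contains 60) ||
      (step d1).all fun d2 => !(d2.contains 51 && d2.contains 60)) = true := by
  decide +kernel

/-- Only one term is new in a one-term extension. -/
theorem mem_of_step {d d' : List ℕ} (hs : d ∈ step d') (h51 : 51 ∈ d) (h60 : 60 ∈ d) :
    51 ∈ d' ∨ 60 ∈ d' := by
  unfold step at hs
  simp only [List.mem_append, List.mem_map, List.mem_range] at hs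
  rcases hs with ⟨j, -, rfl⟩ | ⟨j, -, rfl⟩
  · simp only [List.mem_cons] at h51 h60
    rcases h51 with h51 | h51
    · rcases h60 with h60 | h60
      · omega
      · exact Or.inr h60
    · exact Or.inl h51
  · simp only [List.mem_append, List.mem_singleton] at h51 h60
    rcases h51 with h51 | h51
    · exact Or.inl h51
    · rcases h60 with h60 | h60
      · exact Or.inr h60
      · omega

/-- No regular type A sequence with at most nine terms contains both 51 and 60. -/
theorem no_short {d : List ℕ} (h : RegA d) (hl : d.length ≤ 9) : ¬ (51 ∈ d ∧ 60 ∈ d) := by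
  rintro ⟨h51, h60⟩
  obtain ⟨d9, h9, hl9, hm⟩ := h.extend (9 - d.length)
  have hl9 : d9.length = 9 := by omega
  obtain ⟨d8, h8, hl8, hs9, -, hx9⟩ := h9.exists_step (by omega)
  obtain ⟨d7, h7, hl7, hs8, -, hx8⟩ := h8.exists_step (by omega)
  have m51 := hm _ h51
  have m60 := hm _ h60
  have b7 := h7.mem_le
  have e7 : d7.length = 7 := by omega
  rw [e7] at b7
  have m8 := mem_of_step hs9 m51 m60
  have big : 51 ≤ d7.sum := by
    by_contra hlt
    push Not at hlt
    have key : ∀ x ∈ d8, x < 51 := by
      intro x hx
      rcases hx8 x hx with hx | hx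
      · have := b7 x hx; norm_num at this; omega
      · omega
    rcases m8 with h | h
    · exact absurd (key _ h) (by omega)
    · exact absurd (key _ h) (by omega)
  have hg : d7 ∈ gen 51 5 5 := mem_gen 5 d7 h7 e7 le_rfl (by simpa using big)
  have c := List.all_eq_true.mp (List.all_eq_true.mp check d7 hg) d8 hs8
  rw [Bool.or_eq_true] at c
  rcases c with c | c
  · simp only [Bool.not_eq_true', Bool.or_eq_false_iff, List.contains_eq_mem,
      decide_eq_false_iff_not] at c
    exact m8.elim c.1 c.2
  · have c := List.all_eq_true.mp c d9 hs9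
    simp only [Bool.not_eq_true', Bool.and_eq_false_iff, List.contains_eq_mem,
      decide_eq_false_iff_not] at c
    exact c.elim (fun c => c m51) (fun c => c m60)

theorem regA8 : RegA [60, 30, 15, 7, 4, 2, 1, 1] := by
  have h := RegA.base
  have h := RegA.front (p := [1, 1]) h (by simp) (by simp)
  have h := RegA.front (p := [2, 1, 1]) h (by simp) (by simp)
  have h := RegA.front (p := [4, 2, 1]) h (by simp) (by simp)
  have h := RegA.front (p := [7, 4, 2, 1, 1]) h (by simp) (by simp)
  have h := RegA.front (p := [15, 7, 4, 2, 1, 1]) h (by simp) (by simp)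
  have h := RegA.front (p := [30, 15, 7, 4, 2, 1, 1]) h (by simp) (by simp)
  simpa using h

theorem regA10 : RegA [19, 16, 3, 2, 1, 1, 1, 8, 51, 60] := by
  have h := RegA.base
  have h := RegA.front (p := [1]) h (by simp) (by simp)
  have h := RegA.front (p := [1, 1]) h (by simp) (by simp)
  have h := RegA.front (p := [2, 1]) h (by simp) (by simp)
  have h := RegA.back (s := [3, 2, 1, 1, 1]) h (by simp) (by simp)
  have h := RegA.front (p := [3, 2, 1, 1, 1, 8]) h (by simp) (by simp)
  have h := RegA.front (p := [16, 3]) h (by simp) (by simp)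
  have h := RegA.back (s := [19, 16, 3, 2, 1, 1, 1, 8]) h (by simp) (by simp)
  have h := RegA.back (s := [1, 8, 51]) h (by simp) (by simp [List.suffix_iff_eq_drop])
  simpa using h

theorem a60 : a {60} = 8 := by
  apply le_antisymm
  · apply Nat.sInf_le
    exact ⟨_, regA8, rfl, [60], by simp, rfl⟩
  · apply le_csInf
    · exact ⟨8, _, regA8, rfl, [60], by simp, rfl⟩
    · rintro n ⟨d, hd, rfl, t, ht, hts⟩
      have h60 : 60 ∈ d := by
        apply ht.subset
        have : (60 : ℕ) ∈ (t : Multiset ℕ) := by rw [hts]; simp
        simpa using this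
      have := hd.mem_le 60 h60
      by_contra hlt
      push Not at hlt
      have h2 : 2 ^ d.length ≤ 2 ^ 7 := Nat.pow_le_pow_right (by norm_num) (by omega)
      omega

theorem a51_60 : a {51, 60} = 10 := by
  apply le_antisymm
  · apply Nat.sInf_le
    exact ⟨_, regA10, rfl, [51, 60], by decide, rfl⟩
  · apply le_csInf
    · exact ⟨10, _, regA10, rfl, [51, 60], by decide, rfl⟩
    · rintro n ⟨d, hd, rfl, t, ht, hts⟩
      have h51 : 51 ∈ d := by
        apply ht.subset
        have : (51 : ℕ) ∈ (t : Multiset ℕ) := by rw [hts]; simp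
        simpa using this
      have h60 : 60 ∈ d := by
        apply ht.subset
        have : (60 : ℕ) ∈ (t : Multiset ℕ) := by rw [hts]; simp
        simpa using this
      by_contra hlt
      push Not at hlt
      exact no_short hd (by omega) ⟨h51, h60⟩

/-- `a(60) = 8` and `a(51, 60) = 10`; hence the inequality `a(k₁,k₂) ≤ a(k₂) + 1` is not true for
all positive integers `k₁ ≤ k₂`. -/
theorem result : (a {60} = 8 ∧ a {51, 60} = 10) ∧
    ¬ ∀ k₁ k₂ : ℕ, 0 < k₁ → k₁ ≤ k₂ → a {k₁, k₂} ≤ a {k₂} + 1 := by
  refine ⟨⟨a60, a51_60⟩, fun h => ?_⟩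
  have := h 51 60 (by norm_num) (by norm_num)
  rw [a60, a51_60] at this
  omega

end Pool.Agent.Results.MP_98b1c4_co.GapTwo
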